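import Mathlib

/-!
# Definitions: the polynomial removal threshold

All graphs are finite and simple.  A copy of `H` in `G` is a labelled copy, that is an injective
homomorphism (`SimpleGraph.Copy H G` of Mathlib).
-/

namespace Pool.Agent.Lib.MP_d6499d_co

/-- Two labelled copies of `H` in `G` are edge-disjoint: no edge of `G` is used by both. -/
def EdgeDisjoint {V W : Type} {H : SimpleGraph V} {G : SimpleGraph W}
    (f g : SimpleGraph.Copy H G) : Prop :=
  ∀ a b a' b' : V, H.Adj a b → H.Adj a' b' → s(f a, f b) ≠ s(g a', g b')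

/-- `G` contains at least `x` pairwise edge-disjoint copies of `H`. -/
def HasDisjointCopies {V W : Type} (H : SimpleGraph V) (G : SimpleGraph W) (x : ℝ) : Prop :=
  ∃ F : Finset (SimpleGraph.Copy H G),
    (∀ f ∈ F, ∀ g ∈ F, f ≠ g → EdgeDisjoint f g) ∧ x ≤ F.card

/-- The set of all `δ ∈ [0, 1]` such that, for every `n`, every `n`-vertex graph `G` with minimum
degree at least `γ n` which contains at least `ε n²` pairwise edge-disjoint copies of `H`
contains at least `δ n ^ v(H)` labelled copies of `H`. -/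
def removalSet {V : Type} [Fintype V] (H : SimpleGraph V) (ε γ : ℝ) : Set ℝ :=
  {δ : ℝ | 0 ≤ δ ∧ δ ≤ 1 ∧ ∀ (n : ℕ) (G : SimpleGraph (Fin n)),
    (∀ w, γ * n ≤ (G.neighborSet w).ncard) →
    HasDisjointCopies H G (ε * (n : ℝ) ^ 2) →
    δ * (n : ℝ) ^ Fintype.card V ≤ Nat.card (SimpleGraph.Copy H G)}

/-- `δ(ε, H; γ)`: the largest element of `removalSet H ε γ` (it is attained, see
`removalDelta_isGreatest`). -/
noncomputable def removalDelta {V : Type} [Fintype V] (H : SimpleGraph V) (ε γ : ℝ) : ℝ :=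
  sSup (removalSet H ε γ)

/-- The polynomial removal threshold of `H`: the infimum of all `γ ∈ [0, 1]` for which there is
`μ > 0` with `δ(ε, H; γ) ≥ μ ε ^ (1 / μ)` for all `0 < ε ≤ 1`. -/
noncomputable def polyRemThreshold {V : Type} [Fintype V] (H : SimpleGraph V) : ℝ :=
  sInf {γ : ℝ | 0 ≤ γ ∧ γ ≤ 1 ∧ ∃ μ : ℝ, 0 < μ ∧ ∀ ε : ℝ, 0 < ε → ε ≤ 1 →
    μ * ε ^ (1 / μ) ≤ removalDelta H ε γ}

/-- The supremum in the definition of `removalDelta` is a maximum. -/
theorem removalDelta_isGreatest {V : Type} [Fintype V] (H : SimpleGraph V) (ε γ : ℝ) :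
    IsGreatest (removalSet H ε γ) (removalDelta H ε γ) := by
  have hb : BddAbove (removalSet H ε γ) := ⟨1, fun δ hδ => hδ.2.1⟩
  have h0 : (0 : ℝ) ∈ removalSet H ε γ :=
    ⟨le_rfl, zero_le_one, fun n G _ _ => by rw [zero_mul]; exact Nat.cast_nonneg _⟩
  refine ⟨⟨le_csSup hb h0, csSup_le ⟨0, h0⟩ fun δ hδ => hδ.2.1, fun n G h1 h2 => ?_⟩,
    fun δ hδ => le_csSup hb hδ⟩
  rcases (by positivity : (0 : ℝ) ≤ (n : ℝ) ^ Fintype.card V).eq_or_lt with h | h
  · rw [← h, mul_zero]
    exact Nat.cast_nonneg _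
  · rw [← le_div_iff₀ h]
    refine csSup_le ⟨0, h0⟩ fun δ hδ => ?_
    rw [le_div_iff₀ h]
    exact hδ.2.2 n G h1 h2

end Pool.Agent.Lib.MP_d6499d_co
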