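import Pool.Agent.Lib.MP_d6499d_co.Defs

/-!
# Graphs not homomorphic to an odd cycle: the host graphs

Let `H` be a graph on `h` vertices with no homomorphism to `C_{2k+1}`.  We build graphs `G` with
minimum degree more than `(1/(2k+1) + c) n`, with `ε n²` edge-disjoint copies of `H`, and with
fewer than any fixed power of `ε` times `n ^ h` copies of `H`.

* Place `V(H)` on a cycle of length `N = (2k+1) M` such that adjacent vertices have circular
  distance at least `q`, with `q` maximal.  As `H` has no homomorphism to `C_{2k+1}`, `q` is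
  smaller than `k M - 2 h` (`exists_max`).  For every such placement the digraph of nearly tight
  edges (oriented distance in `[q, q + h]`) has a directed cycle (`exists_cw`), for otherwise one
  could improve the placement.  Take the placement `cF` for which the shortest nearly tight
  directed cycle is longest, of length `L` (`exists_extremal`).
* The host graph has heavy vertices over the positions of the cycle and light vertices over the
  vertices of `H`; light vertices over adjacent vertices of `H` are joined by sparse graphs of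
  Ruzsa-Szemeredi type (one coordinate for every enumeration of `V(H)`), and all other pairs are
  joined iff their positions have circular distance more than `q + h`.
* A homomorphism of `H` to the host graph gives a placement of `H`; its shortest nearly tight
  directed cycle has length at most `L` and lies among the light vertices, where it maps onto
  a shortest nearly tight directed cycle of the placement `cF`.  In the coordinate of a suitable
  enumeration it is rigid (`structure_lemma`).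
-/

open SimpleGraph

namespace Pool.Agent.Lib.MP_d6499d_co

/-- `c` places the vertices on a cycle of length `N` so that adjacent vertices have circular
distance at least `q`. -/
def Good {V : Type} (H : SimpleGraph V) (N q : ℤ) (c : V → ℤ) : Prop :=
  ∀ u v, H.Adj u v → ∃ t : ℤ, q ≤ c v - c u + t * N ∧ c v - c u + t * N ≤ N - q

lemma exists_offset {V : Type} [Fintype V] (M : ℕ)
    (hM : 2 * Fintype.card V * Fintype.card V < M) (c : V → ℤ) :
    ∃ s : ℤ, ∀ v, (Fintype.card V : ℤ) ≤ (c v - s) % M ∧ (c v - s) % M < M - Fintype.card V := by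
  classical
  set h := Fintype.card V with hh
  have hMpos : (0 : ℤ) < M := by exact_mod_cast (lt_of_le_of_lt (Nat.zero_le _) hM)
  set B : Finset ℤ := (Finset.univ : Finset V).biUnion
    (fun v => (Finset.Ico (-(h : ℤ)) h).image (fun r => (c v - r) % M)) with hB
  have hBcard : B.card < (Finset.Ico (0 : ℤ) M).card := by
    calc B.card ≤ ∑ v : V, ((Finset.Ico (-(h : ℤ)) h).image (fun r => (c v - r) % M)).card :=
          Finset.card_biUnion_le
      _ ≤ ∑ v : V, (2 * h) := by
          refine Finset.sum_le_sum fun v _ => ?_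
          refine Finset.card_image_le.trans ?_
          rw [Int.card_Ico]
          omega
      _ = h * (2 * h) := by simp [hh]
      _ < (Finset.Ico (0 : ℤ) M).card := by
          rw [Int.card_Ico]
          simp only [sub_zero, Int.toNat_natCast]
          nlinarith
  obtain ⟨s, hs, hsB⟩ := Finset.exists_mem_notMem_of_card_lt_card hBcard
  rw [Finset.mem_Ico] at hs
  refine ⟨s, fun v => ?_⟩
  have hsB' : ∀ r : ℤ, -(h : ℤ) ≤ r → r < h → (c v - r) % M ≠ s := by
    intro r h1 h2 h3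
    apply hsB
    rw [hB, Finset.mem_biUnion]
    exact ⟨v, Finset.mem_univ _, Finset.mem_image.2 ⟨r, Finset.mem_Ico.2 ⟨h1, h2⟩, h3⟩⟩
  have h0 := Int.emod_nonneg (c v - s) hMpos.ne'
  have h1 := Int.emod_lt_of_pos (c v - s) hMpos
  have h2 := Int.emod_add_mul_ediv (c v - s) M
  set ρ := (c v - s) % M with hρ
  set κ := (c v - s) / M with hκ
  constructor
  · by_contra hlt
    push Not at hlt
    apply hsB' ρ (by omega) hlt
    have : c v - ρ = s + M * κ := by linarith
    rw [this, Int.add_mul_emod_self_left]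
    exact Int.emod_eq_of_lt hs.1 hs.2
  · by_contra hlt
    push Not at hlt
    apply hsB' (ρ - M) (by omega) (by omega)
    have : c v - (ρ - M) = s + M * (κ + 1) := by linarith
    rw [this, Int.add_mul_emod_self_left]
    exact Int.emod_eq_of_lt hs.1 hs.2

lemma good_hom {V : Type} [Fintype V] (H : SimpleGraph V) {k M : ℕ} (hk : 1 ≤ k)
    (hM : 2 * Fintype.card V * Fintype.card V < M) {q : ℤ}
    (hq : (k : ℤ) * M - 2 * Fintype.card V ≤ q) {c : V → ℤ}
    (hc : Good H ((2 * k + 1) * M) q c) : Nonempty (H →g cycleGraph (2 * k + 1)) := by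
  obtain ⟨s, hs⟩ := exists_offset M hM c
  set h := Fintype.card V with hh
  have hMpos : (0 : ℤ) < M := by exact_mod_cast (lt_of_le_of_lt (Nat.zero_le _) hM)
  have hp : (0 : ℤ) < 2 * k + 1 := by positivity
  -- the value at `v`
  let κ : V → ℤ := fun v => (c v - s) / M
  have key : ∀ u v, H.Adj u v → ∃ t : ℤ, κ v - κ u + t * (2 * k + 1) = k ∨
      κ v - κ u + t * (2 * k + 1) = k + 1 := by
    intro u v huv
    obtain ⟨t, ht1, ht2⟩ := hc u v huv
    refine ⟨t, ?_⟩
    have hu := Int.emod_add_mul_ediv (c u - s) M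
    have hv := Int.emod_add_mul_ediv (c v - s) M
    obtain ⟨hu1, hu2⟩ := hs u
    obtain ⟨hv1, hv2⟩ := hs v
    have e1 : c v - c u + t * ((2 * k + 1) * M) = M * (κ v - κ u + t * (2 * k + 1))
        + ((c v - s) % M - (c u - s) % M) := by
      simp only [κ]; linarith
    set D := κ v - κ u + t * (2 * k + 1) with hD
    rw [e1] at ht1 ht2
    have l1 : (k : ℤ) ≤ D := by
      by_contra hlt
      push Not at hlt
      have : (M : ℤ) * (D + 1) ≤ M * k := by
        apply mul_le_mul_of_nonneg_left _ hMpos.le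
        omega
      nlinarith
    have l2 : D ≤ k + 1 := by
      by_contra hlt
      push Not at hlt
      have : (M : ℤ) * (k + 2) ≤ M * D := by
        apply mul_le_mul_of_nonneg_left _ hMpos.le
        omega
      nlinarith
    omega
  have hn : 0 < 2 * k + 1 := by positivity
  have hlt : ∀ v, ((2 * κ v) % (2 * k + 1 : ℤ)).toNat < 2 * k + 1 := by
    intro v
    have h1 := Int.emod_lt_of_pos (2 * κ v) hp
    have h0 := Int.emod_nonneg (2 * κ v) hp.ne'
    omega
  refine ⟨⟨fun v => ⟨((2 * κ v) % (2 * k + 1 : ℤ)).toNat, hlt v⟩, ?_⟩⟩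
  intro u v huv
  rw [cycleGraph_adj']
  obtain ⟨t, ht⟩ := key u v huv
  have hu1 := Int.emod_lt_of_pos (2 * κ u) hp
  have hu0 := Int.emod_nonneg (2 * κ u) hp.ne'
  have hv1 := Int.emod_lt_of_pos (2 * κ v) hp
  have hv0 := Int.emod_nonneg (2 * κ v) hp.ne'
  have hu2 := Int.emod_add_mul_ediv (2 * κ u) (2 * k + 1)
  have hv2 := Int.emod_add_mul_ediv (2 * κ v) (2 * k + 1)
  set a := (2 * κ u) % (2 * k + 1 : ℤ)
  set b := (2 * κ v) % (2 * k + 1 : ℤ)
  set a' := (2 * κ u) / (2 * k + 1 : ℤ)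
  set b' := (2 * κ v) / (2 * k + 1 : ℤ)
  have hP : (3 : ℤ) ≤ 2 * k + 1 := by omega
  rcases ht with ht | ht
  · left
    have e : b - a = -1 + (2 * k + 1) * (1 - 2 * t - b' + a') := by linarith
    set j := 1 - 2 * t - b' + a' with hj
    have j1 : j ≤ 1 := by
      by_contra hlt
      push Not at hlt
      have : (2 * k + 1 : ℤ) * 2 ≤ (2 * k + 1) * j :=
        mul_le_mul_of_nonneg_left (by omega) hp.le
      omega
    have j0 : 0 ≤ j := by
      by_contra hlt
      push Not at hlt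
      have : (2 * k + 1 : ℤ) * j ≤ (2 * k + 1) * (-1) :=
        mul_le_mul_of_nonneg_left (by omega) hp.le
      omega
    have hab : a - b = 1 ∨ a - b = 1 - (2 * k + 1) := by
      rcases (by omega : j = 0 ∨ j = 1) with h' | h' <;> rw [h'] at e <;> omega
    rw [Fin.sub_def]
    simp only
    rcases hab with hab | hab
    · rw [show 2 * k + 1 - b.toNat + a.toNat = 1 + (2 * k + 1) by omega, Nat.add_mod_right,
        Nat.mod_eq_of_lt (by omega)]
    · rw [show 2 * k + 1 - b.toNat + a.toNat = 1 by omega, Nat.mod_eq_of_lt (by omega)]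
  · right
    have e : b - a = 1 + (2 * k + 1) * (1 - 2 * t - b' + a') := by linarith
    set j := 1 - 2 * t - b' + a' with hj
    have j1 : j ≤ 0 := by
      by_contra hlt
      push Not at hlt
      have : (2 * k + 1 : ℤ) * 1 ≤ (2 * k + 1) * j :=
        mul_le_mul_of_nonneg_left (by omega) hp.le
      omega
    have j0 : -1 ≤ j := by
      by_contra hlt
      push Not at hlt
      have : (2 * k + 1 : ℤ) * j ≤ (2 * k + 1) * (-2) :=
        mul_le_mul_of_nonneg_left (by omega) hp.le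
      omega
    have hab : b - a = 1 ∨ b - a = 1 - (2 * k + 1) := by
      rcases (by omega : j = 0 ∨ j = -1) with h' | h' <;> rw [h'] at e <;> omega
    rw [Fin.sub_def]
    simp only
    rcases hab with hab | hab
    · rw [show 2 * k + 1 - a.toNat + b.toNat = 1 + (2 * k + 1) by omega, Nat.add_mod_right,
        Nat.mod_eq_of_lt (by omega)]
    · rw [show 2 * k + 1 - a.toNat + b.toNat = 1 by omega, Nat.mod_eq_of_lt (by omega)]

/-- A nearly tight arc: the oriented circular distance from `u` to `v` lies in `[q, q + h]`. -/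
def Arc {V : Type} (H : SimpleGraph V) (N q h : ℤ) (c : V → ℤ) (u v : V) : Prop :=
  H.Adj u v ∧ ∃ t : ℤ, q ≤ c v - c u + t * N ∧ c v - c u + t * N ≤ q + h

/-- `z 0, …, z l = z 0` is a closed walk of the relation `R`. -/
def IsCW {V : Type} (R : V → V → Prop) (l : ℕ) (z : ℕ → V) : Prop :=
  0 < l ∧ (∀ i < l, R (z i) (z (i + 1))) ∧ z l = z 0

lemma exists_walk_of_transGen {V : Type} {R : V → V → Prop} {u v : V}
    (h : Relation.TransGen R u v) :
    ∃ (l : ℕ) (z : ℕ → V), 0 < l ∧ z 0 = u ∧ z l = v ∧ ∀ i < l, R (z i) (z (i + 1)) := by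
  induction h with
  | single h =>
    rename_i b
    refine ⟨1, fun i => if i = 0 then u else b, one_pos, by simp, by simp, ?_⟩
    intro i hi
    obtain rfl : i = 0 := by omega
    simpa using h
  | tail h1 h2 ih =>
    rename_i b c
    obtain ⟨l, z, hl, h0, hz, hR⟩ := ih
    refine ⟨l + 1, fun i => if i ≤ l then z i else c, by omega, by simpa using h0, by simp, ?_⟩
    intro i hi
    rcases Nat.lt_succ_iff_lt_or_eq.1 hi with h | h
    · have h' : i + 1 ≤ l := h
      simpa [h.le, h'] using hR i h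
    · subst h
      simpa [hz] using h2

/-- Closed walks of minimal length are injective. -/
lemma cw_injective {V : Type} {R : V → V → Prop} {l : ℕ} {z : ℕ → V} (hz : IsCW R l z)
    (hmin : ∀ l' z', IsCW R l' z' → l ≤ l') : ∀ i < l, ∀ j < l, z i = z j → i = j := by
  have main : ∀ i < l, ∀ j < l, i < j → z i ≠ z j := by
    intro i hi j hj hij h
    have := hmin (j - i) (fun x => z (i + x)) ⟨by omega, fun x hx => ?_, ?_⟩
    · omega
    · have := hz.2.1 (i + x) (by omega)
      simpa [add_assoc] using this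
    · simp only [add_zero]
      rw [show i + (j - i) = j by omega, h]
  intro i hi j hj h
  rcases lt_trichotomy i j with h1 | h1 | h1
  · exact absurd h (main i hi j hj h1)
  · exact h1
  · exact absurd h.symm (main j hj i hi h1)

lemma exists_cw {V : Type} [Fintype V] (H : SimpleGraph V) {N q : ℤ} {c : V → ℤ}
    (hc : Good H N q c) (hN : 2 * q + 2 * Fintype.card V < N)
    (hmax : ∀ c', ¬ Good H N (q + 1) c') :
    ∃ l z, IsCW (Arc H N q (Fintype.card V) c) l z := by
  classical
  by_contra hno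
  push Not at hno
  have hacyc : ∀ v, ¬ Relation.TransGen (Arc H N q (Fintype.card V) c) v v := by
    intro v hv
    obtain ⟨l, z, hl, h0, hz, hR⟩ := exists_walk_of_transGen hv
    exact hno l z ⟨hl, hR, by rw [h0, hz]⟩
  let D : V → Finset V := fun v =>
    Finset.univ.filter (fun u => Relation.TransGen (Arc H N q (Fintype.card V) c) u v)
  have hD1 : ∀ u v, Arc H N q (Fintype.card V) c u v → (D u).card + 1 ≤ (D v).card := by
    intro u v huv
    have hss : D u ⊂ D v := by
      refine (Finset.ssubset_iff_of_subset ?_).2 ⟨u, ?_, ?_⟩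
      · intro w hw
        simp only [D, Finset.mem_filter, Finset.mem_univ, true_and] at hw ⊢
        exact hw.tail huv
      · simp only [D, Finset.mem_filter, Finset.mem_univ, true_and]
        exact .single huv
      · simp only [D, Finset.mem_filter, Finset.mem_univ, true_and]
        exact hacyc u
    exact Finset.card_lt_card hss
  have hD2 : ∀ v, (D v).card + 1 ≤ Fintype.card V := by
    intro v
    have : D v ⊂ Finset.univ := by
      refine (Finset.ssubset_iff_of_subset (Finset.subset_univ _)).2 ⟨v, Finset.mem_univ _, ?_⟩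
      simp only [D, Finset.mem_filter, Finset.mem_univ, true_and]
      exact hacyc v
    exact Finset.card_lt_card this
  apply hmax (fun v => c v + (D v).card)
  intro u v huv
  obtain ⟨t, ht1, ht2⟩ := hc u v huv
  refine ⟨t, ?_⟩
  have a1 := hD2 u
  have a2 := hD2 v
  by_cases h1 : c v - c u + t * N ≤ q + Fintype.card V
  · have := hD1 u v ⟨huv, t, ht1, h1⟩
    constructor <;> push_cast <;> zify at * <;> linarith
  · by_cases h2 : N - q - Fintype.card V ≤ c v - c u + t * N
    · have := hD1 v u ⟨huv.symm, 1 - t, by nlinarith, by nlinarith⟩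
      constructor <;> zify at * <;> linarith
    · push Not at h1 h2
      constructor <;> zify at * <;> linarith

lemma cw_length {V : Type} {H : SimpleGraph V} {N q h : ℤ} (hq : 1 ≤ q)
    (hN : 2 * q + 2 * h < N) {c : V → ℤ} {l : ℕ} {z : ℕ → V}
    (hz : IsCW (Arc H N q h c) l z) : 3 ≤ l := by
  obtain ⟨h0, hR, hl⟩ := hz
  by_contra hlt
  push Not at hlt
  rcases (by omega : l = 1 ∨ l = 2) with h1 | h1
  · subst h1
    have := (hR 0 (by omega)).1
    rw [zero_add, hl] at this
    exact H.loopless.irrefl _ this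
  · subst h1
    obtain ⟨_, t, ht1, ht2⟩ := hR 0 (by omega)
    obtain ⟨_, t', ht1', ht2'⟩ := hR 1 (by omega)
    simp only [zero_add, Nat.reduceAdd] at *
    rw [hl] at ht1' ht2'
    have e1 : 2 * q ≤ (t + t') * N := by linarith
    have e2 : (t + t') * N < N := by linarith
    have e3 : t + t' < 1 := by
      by_contra hge
      push Not at hge
      have : 1 * N ≤ (t + t') * N := mul_le_mul_of_nonneg_right hge (by linarith)
      linarith
    have e4 : (t + t') * N ≤ 0 := mul_nonpos_of_nonpos_of_nonneg (by omega) (by linarith)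
    linarith

/-- The extremal placement: `cF` has the largest possible girth `L` of its nearly tight digraph,
so that every good placement has a nearly tight closed walk of length at most `L`. -/
lemma exists_extremal {V : Type} [Fintype V] (H : SimpleGraph V) {N q : ℤ} {c : V → ℤ}
    (hc : Good H N q c) (hq : 1 ≤ q) (hN : 2 * q + 2 * Fintype.card V < N)
    (hmax : ∀ c', ¬ Good H N (q + 1) c') :
    ∃ (cF : V → ℤ) (L : ℕ), Good H N q cF ∧ 3 ≤ L ∧ L ≤ Fintype.card V ∧
      (∀ l z, IsCW (Arc H N q (Fintype.card V) cF) l z → L ≤ l) ∧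
      (∀ c', Good H N q c' → ∃ l z, IsCW (Arc H N q (Fintype.card V) c') l z ∧ l ≤ L) := by
  classical
  let Q : ℕ → Prop := fun g => ∃ c', Good H N q c' ∧
    ∀ l z, IsCW (Arc H N q (Fintype.card V) c') l z → g ≤ l
  have hQ3 : Q 3 := ⟨c, hc, fun l z hz => cw_length hq hN hz⟩
  have hQb : ∀ g, Q g → g ≤ Fintype.card V := by
    rintro g ⟨c', hc', hg⟩
    obtain ⟨l, z, hz⟩ := exists_cw H hc' hN hmax
    -- a shortest closed walk
    have hex : ∃ l, ∃ z, IsCW (Arc H N q (Fintype.card V) c') l z := ⟨l, z, hz⟩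
    obtain ⟨z₀, hz₀⟩ := Nat.find_spec hex
    have hmin : ∀ l' z', IsCW (Arc H N q (Fintype.card V) c') l' z' → Nat.find hex ≤ l' :=
      fun l' z' h => Nat.find_min' hex ⟨z', h⟩
    have hinj := cw_injective hz₀ hmin
    have : Nat.find hex ≤ Fintype.card V := by
      have := Fintype.card_le_of_injective (fun i : Fin (Nat.find hex) => z₀ i)
        (fun i j hij => Fin.ext (hinj i i.2 j j.2 hij))
      simpa using this
    exact (hg _ _ hz₀).trans this
  set L := Nat.findGreatest Q (Fintype.card V) with hL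
  have h3L : 3 ≤ L := Nat.le_findGreatest (hQb 3 hQ3) hQ3
  have hQL : Q L := Nat.findGreatest_spec (hQb 3 hQ3) hQ3
  have hLV := hQb L hQL
  obtain ⟨cF, hcF, hcF'⟩ := hQL
  refine ⟨cF, L, hcF, h3L, hLV, hcF', fun c' hc' => ?_⟩
  by_contra hno
  push Not at hno
  have hQ' : Q (L + 1) := ⟨c', hc', fun l z hz => hno l z hz⟩
  have := Nat.le_findGreatest (hQb _ hQ') hQ'
  omega


lemma exists_max {V : Type} [Fintype V] (H : SimpleGraph V) {k M : ℕ} (hk : 1 ≤ k)
    (hM : 2 * Fintype.card V * Fintype.card V < M)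
    (hH : ¬ Nonempty (H →g cycleGraph (2 * k + 1))) :
    ∃ (q : ℤ) (c : V → ℤ), 1 ≤ q ∧ q + 2 * Fintype.card V + 1 ≤ k * M ∧
      Good H ((2 * k + 1) * M) q c ∧ ∀ c', ¬ Good H ((2 * k + 1) * M) (q + 1) c' := by
  classical
  set h := Fintype.card V with hh
  have hb : ∀ q : ℤ, (∃ c, Good H ((2 * k + 1) * M) q c) → q + 2 * h + 1 ≤ k * M := by
    rintro q ⟨c, hc⟩
    by_contra hlt
    push Not at hlt
    exact hH (good_hom H hk hM (by rw [← hh]; linarith) hc)
  let P : ℕ → Prop := fun q => ∃ c, Good H ((2 * k + 1) * M) (q : ℤ) c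
  have hMh : (h : ℤ) < M := by
    have h1 : h ≤ 2 * h * h ∨ h = 0 := by
      rcases Nat.eq_zero_or_pos h with h0 | h0
      · right; exact h0
      · left; nlinarith
    rcases h1 with h1 | h1
    · exact_mod_cast lt_of_le_of_lt h1 hM
    · rw [h1] at hM ⊢
      exact_mod_cast lt_of_le_of_lt (Nat.zero_le _) hM
  have hMN : (M : ℤ) ≤ (2 * k + 1) * M := by nlinarith [(Nat.cast_nonneg M : (0:ℤ) ≤ M), (Nat.cast_nonneg k : (0:ℤ) ≤ k)]
  have hP1 : P 1 := by
    let e := Fintype.equivFin V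
    refine ⟨fun v => ((e v : ℕ) : ℤ), ?_⟩
    intro u v huv
    have hne : (e u : ℕ) ≠ (e v : ℕ) := by
      intro h'
      exact huv.ne (e.injective (Fin.ext h'))
    have h1 := (e u).2
    have h2 := (e v).2
    rcases Nat.lt_or_gt_of_ne hne with h3 | h3
    · refine ⟨0, ?_, ?_⟩ <;> push_cast <;> zify at * <;> linarith
    · refine ⟨1, ?_, ?_⟩ <;> push_cast <;> zify at * <;> linarith
  have hPb : ∀ q, P q → q ≤ k * M := by
    intro q hq
    have := hb q hq
    zify
    linarith [(Nat.cast_nonneg h : (0:ℤ) ≤ h)]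
  set q := Nat.findGreatest P (k * M) with hq
  have hq1 : 1 ≤ q := Nat.le_findGreatest (hPb 1 hP1) hP1
  obtain ⟨c, hc⟩ : P q := Nat.findGreatest_spec (hPb 1 hP1) hP1
  refine ⟨q, c, by exact_mod_cast hq1, hb q ⟨c, hc⟩, hc, fun c' hc' => ?_⟩
  have hP' : P (q + 1) := ⟨c', by push_cast; exact hc'⟩
  have := Nat.le_findGreatest (hPb _ hP') hP'
  omega


/-! ### The host graph -/

section Host

variable {V : Type} [Fintype V]

/-- Two positions on the cycle of length `N` at circular distance more than `q + h`. -/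
def Far (N q h i j : ℤ) : Prop :=
  ∃ t : ℤ, q + h + 1 ≤ j - i + t * N ∧ j - i + t * N ≤ N - q - h - 1

lemma Far.symm {N q h i j : ℤ} (H : Far N q h i j) : Far N q h j i := by
  obtain ⟨t, h1, h2⟩ := H
  exact ⟨1 - t, by linarith, by linarith⟩

lemma not_far_self {N q h i : ℤ} (hq : 0 ≤ q) (hh : 0 ≤ h) : ¬ Far N q h i i := by
  rintro ⟨t, h1, h2⟩
  have hN : 0 < N := by linarith
  have e1 : 0 < t := by
    by_contra hlt
    push Not at hlt
    have := mul_nonpos_of_nonpos_of_nonneg hlt hN.le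
    linarith
  have : 1 * N ≤ t * N := mul_le_mul_of_nonneg_right (by omega) hN.le
  linarith

/-- Coordinates of the light vertices: one element of the group for every enumeration of `V`. -/
abbrev Coord (V Γ : Type) [Fintype V] : Type := (V ≃ Fin (Fintype.card V)) → Γ

/-- The vertices of the host graph: light vertices, lying over the vertices of `H`, and heavy
vertices, lying over the positions of a cycle of length `N`. -/
abbrev Vert (V Γ : Type) [Fintype V] (N : ℕ) : Type :=
  (V × Coord V Γ) ⊕ (Fin N × Coord V Γ)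

/-- The position of a vertex of the host graph. -/
def pos {Γ : Type} {N : ℕ} (cF : V → ℤ) : Vert V Γ N → ℤ
  | .inl (v, _) => cF v
  | .inr (j, _) => ((j : ℕ) : ℤ)

/-- Adjacency in the host graph. -/
def hostAdj {Γ T : Type} [AddCommGroup Γ] (H : SimpleGraph V) (N : ℕ) (q : ℤ) (cF : V → ℤ)
    (a : T → Γ) : Vert V Γ N → Vert V Γ N → Prop
  | .inl (u, x), .inl (v, y) => H.Adj u v ∧ ∀ σ : V ≃ Fin (Fintype.card V), ∃ t : T,
      y σ - x σ = (((σ v : ℕ) : ℤ) - ((σ u : ℕ) : ℤ)) • a t
  | w, w' => Far N q (Fintype.card V) (pos cF w) (pos cF w')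

lemma hostAdj_symm {Γ T : Type} [AddCommGroup Γ] (H : SimpleGraph V) (N : ℕ) (q : ℤ)
    (cF : V → ℤ) (a : T → Γ) : ∀ w w', hostAdj H N q cF a w w' → hostAdj H N q cF a w' w
  | .inl (u, x), .inl (v, y), h => by
      refine ⟨h.1.symm, fun σ => ?_⟩
      obtain ⟨t, ht⟩ := h.2 σ
      refine ⟨t, ?_⟩
      rw [← neg_sub (y σ) (x σ), ht, ← neg_smul, neg_sub]
  | .inl (u, x), .inr (j, y), h => Far.symm h
  | .inr (i, x), .inl (v, y), h => Far.symm h
  | .inr (i, x), .inr (j, y), h => Far.symm h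

/-- The host graph. -/
def host {Γ T : Type} [AddCommGroup Γ] (H : SimpleGraph V) (N : ℕ) (q : ℤ) (hq : 0 ≤ q)
    (cF : V → ℤ) (a : T → Γ) : SimpleGraph (Vert V Γ N) where
  Adj := hostAdj H N q cF a
  symm := ⟨fun w w' => hostAdj_symm H N q cF a w w'⟩
  loopless := ⟨fun w => by
    rcases w with ⟨u, x⟩ | ⟨j, x⟩
    · intro h
      exact h.1.ne rfl
    · intro h
      exact not_far_self hq (Nat.cast_nonneg _) h⟩

variable {Γ T : Type} [AddCommGroup Γ] {H : SimpleGraph V} {N : ℕ} {q : ℤ} {hq : 0 ≤ q}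
  {cF : V → ℤ} {a : T → Γ}

lemma host_good (hcF : Good H N q cF) {w w' : Vert V Γ N} (h : (host H N q hq cF a).Adj w w') :
    ∃ t : ℤ, q ≤ pos cF w' - pos cF w + t * N ∧ pos cF w' - pos cF w + t * N ≤ N - q := by
  have far : Far N q (Fintype.card V) (pos cF w) (pos cF w') →
      ∃ t : ℤ, q ≤ pos cF w' - pos cF w + t * N ∧ pos cF w' - pos cF w + t * N ≤ N - q := by
    rintro ⟨t, h1, h2⟩
    exact ⟨t, by linarith [(Nat.cast_nonneg (Fintype.card V) : (0:ℤ) ≤ _)],
      by linarith [(Nat.cast_nonneg (Fintype.card V) : (0:ℤ) ≤ _)]⟩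
  rcases w with ⟨u, x⟩ | ⟨j, x⟩ <;> rcases w' with ⟨v, y⟩ | ⟨j', y⟩
  · exact hcF u v h.1
  · exact far h
  · exact far h
  · exact far h

/-- A nearly tight edge of the host graph joins two light vertices. -/
lemma host_light {w w' : Vert V Γ N} (h : (host H N q hq cF a).Adj w w')
    {t : ℤ} (h1 : q ≤ pos cF w' - pos cF w + t * N)
    (h2 : pos cF w' - pos cF w + t * N ≤ q + Fintype.card V) :
    ∃ u x v y, w = .inl (u, x) ∧ w' = .inl (v, y) := by
  have far : ¬ Far N q (Fintype.card V) (pos cF w) (pos cF w') := by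
    rintro ⟨t', h3, h4⟩
    have hN : (0 : ℤ) < N := by
      have : (0:ℤ) ≤ Fintype.card V := Nat.cast_nonneg _
      linarith
    have e1 : (t' - t) * N > 0 := by linarith
    have e2 : (t' - t) * N < N := by
      have : (0:ℤ) ≤ Fintype.card V := Nat.cast_nonneg _
      linarith
    have e3 : 0 < t' - t := by
      by_contra hlt
      push Not at hlt
      have := mul_nonpos_of_nonpos_of_nonneg hlt hN.le
      linarith
    have : 1 * (N : ℤ) ≤ (t' - t) * N := mul_le_mul_of_nonneg_right (by omega) hN.le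
    linarith
  rcases w with ⟨u, x⟩ | ⟨j, x⟩ <;> rcases w' with ⟨v, y⟩ | ⟨j', y⟩
  · exact ⟨u, x, v, y, rfl, rfl⟩
  · exact absurd h far
  · exact absurd h far
  · exact absurd h far

end Host


/-- Every homomorphism of `H` into the host graph uses a rigid light closed walk of length `L`. -/
lemma structure_lemma {V : Type} [Fintype V] {Γ T : Type} [AddCommGroup Γ] {H : SimpleGraph V}
    {N : ℕ} {q : ℤ} {hq : 0 ≤ q} {cF : V → ℤ} {a : T → Γ} {L : ℕ} (hL : 3 ≤ L)
    (hcF : Good H N q cF)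
    (hgirth : ∀ l z, IsCW (Arc H N q (Fintype.card V) cF) l z → L ≤ l)
    (hall : ∀ c', Good H N q c' → ∃ l z, IsCW (Arc H N q (Fintype.card V) c') l z ∧ l ≤ L)
    (hrig : ∀ τ : ℕ → T, L ≤ Fintype.card V →
      ∑ i ∈ Finset.range (L - 1), a (τ i) = (L - 1) • a (τ (L - 1)) → ∀ i < L, τ i = τ (L - 1))
    (ψ : H →g host H N q hq cF a) :
    ∃ (z : Fin L → V) (σ : V ≃ Fin (Fintype.card V)) (hLV : L ≤ Fintype.card V)
      (x : Γ) (t : T), Function.Injective z ∧ ∀ i : Fin L, ∃ y : Coord V Γ,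
        ψ (z i) = .inl (σ.symm (Fin.castLE hLV i), y) ∧ y σ = x + (i : ℕ) • a t := by
  classical
  have hgood : Good H N q (fun v => pos cF (ψ v)) := fun u v huv => host_good hcF (ψ.map_adj huv)
  obtain ⟨l, z, ⟨hl0, hR, hlz⟩, hlL⟩ := hall _ hgood
  -- all vertices of the walk are light
  have hlight : ∀ i < l, ∃ u x, ψ (z i) = .inl (u, x) := by
    intro i hi
    obtain ⟨hadj, t, h1, h2⟩ := hR i hi
    obtain ⟨u, x, v, y, hu, hv⟩ := host_light (ψ.map_adj hadj) h1 h2
    exact ⟨u, x, hu⟩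
  have hlight' : ∀ i ≤ l, ∃ p : V × Coord V Γ, ψ (z i) = .inl p := by
    intro i hi
    rcases hi.lt_or_eq with h | h
    · obtain ⟨u, x, hu⟩ := hlight i h
      exact ⟨(u, x), hu⟩
    · subst h
      rw [hlz]
      obtain ⟨u, x, hu⟩ := hlight 0 hl0
      exact ⟨(u, x), hu⟩
  -- projections
  have p0 : V × Coord V Γ := (hlight' 0 (Nat.zero_le _)).choose
  let P : ℕ → V × Coord V Γ := fun i => if h : i ≤ l then (hlight' i h).choose else p0
  have hP : ∀ i ≤ l, ψ (z i) = .inl (P i) := by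
    intro i hi
    simp only [P, hi, dif_pos]
    exact (hlight' i hi).choose_spec
  have hPl : P l = P 0 := by
    have h1 := hP l le_rfl
    have h2 := hP 0 (Nat.zero_le _)
    rw [hlz, h2] at h1
    exact (Sum.inl_injective h1).symm
  have hadjP : ∀ i < l, hostAdj H N q cF a (.inl (P i)) (.inl (P (i + 1))) := by
    intro i hi
    have h := ψ.map_adj (hR i hi).1
    have h' : hostAdj H N q cF a (ψ (z i)) (ψ (z (i + 1))) := h
    rwa [hP i hi.le, hP (i + 1) hi] at h'
  have hcw : IsCW (Arc H N q (Fintype.card V) cF) l (fun i => (P i).1) := by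
    refine ⟨hl0, fun i hi => ⟨(hadjP i hi).1, ?_⟩, by simp only [hPl]⟩
    obtain ⟨_, t, h1, h2⟩ := hR i hi
    simp only [hP i hi.le, hP (i + 1) hi] at h1 h2
    exact ⟨t, h1, h2⟩
  have hlL' : l = L := le_antisymm hlL (hgirth _ _ hcw)
  subst hlL'
  have hinj := cw_injective hcw hgirth
  have hinjF : Function.Injective (fun i : Fin l => (P i).1) :=
    fun i j hij => Fin.ext (hinj i i.2 j j.2 hij)
  have hLV : l ≤ Fintype.card V := by
    simpa using Fintype.card_le_of_injective _ hinjF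
  -- the enumeration
  obtain ⟨g, hg⟩ := Finset.exists_equiv_extend_of_card_eq (α := Fin (Fintype.card V)) (β := V)
    (t := Finset.univ) (by simp)
    (s := Finset.univ.filter (fun i : Fin (Fintype.card V) => (i : ℕ) < l))
    (f := fun i => (P i).1) (Finset.subset_univ _) (by
      intro i hi j hj hij
      simp only [Finset.coe_filter, Finset.mem_univ, true_and, Set.mem_ofPred_eq] at hi hj
      exact Fin.ext (hinj i hi j hj hij))
  let σ : V ≃ Fin (Fintype.card V) := (g.trans (Equiv.subtypeUnivEquiv (by simp))).symm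
  have hσ : ∀ i : Fin (Fintype.card V), (i : ℕ) < l → σ.symm i = (P i).1 := by
    intro i hi
    have := hg i (by simpa using hi)
    simpa [σ] using this
  have hσ' : ∀ i < l, ((σ (P i).1 : ℕ) : ℤ) = i := by
    intro i hi
    have h1 := hσ ⟨i, by omega⟩ hi
    simp only at h1
    rw [← h1, Equiv.apply_symm_apply]
  -- the steps
  have hstep : ∀ i < l, ∃ t : T, (P (i + 1)).2 σ - (P i).2 σ =
      (((σ (P (i + 1)).1 : ℕ) : ℤ) - ((σ (P i).1 : ℕ) : ℤ)) • a t := fun i hi => (hadjP i hi).2 σ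
  have t0 : T := (hstep 0 hl0).choose
  let τ : ℕ → T := fun i => if h : i < l then (hstep i h).choose else t0
  have hτ : ∀ i < l, (P (i + 1)).2 σ - (P i).2 σ =
      (((σ (P (i + 1)).1 : ℕ) : ℤ) - ((σ (P i).1 : ℕ) : ℤ)) • a (τ i) := by
    intro i hi
    simp only [τ, hi, dif_pos]
    exact (hstep i hi).choose_spec
  have hτ1 : ∀ i < l - 1, (P (i + 1)).2 σ - (P i).2 σ = a (τ i) := by
    intro i hi
    rw [hτ i (by omega), hσ' i (by omega), hσ' (i + 1) (by omega)]
    push_cast
    rw [add_sub_cancel_left, one_smul]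
  have hsum : ∀ m ≤ l - 1, (P m).2 σ = (P 0).2 σ + ∑ i ∈ Finset.range m, a (τ i) := by
    intro m hm
    induction m with
    | zero => simp
    | succ m ih =>
      rw [Finset.sum_range_succ, ← hτ1 m (by omega), ← add_assoc, ← ih (by omega)]
      abel
  have hlast : ∑ i ∈ Finset.range (l - 1), a (τ i) = (l - 1) • a (τ (l - 1)) := by
    have h1 := hτ (l - 1) (by omega)
    rw [show l - 1 + 1 = l by omega, hPl, hσ' (l - 1) (by omega), hσ' 0 hl0,
      hsum (l - 1) le_rfl] at h1
    have h2 : -∑ i ∈ Finset.range (l - 1), a (τ i) =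
        (((0 : ℕ) : ℤ) - ((l - 1 : ℕ) : ℤ)) • a (τ (l - 1)) := by
      rw [← h1]; abel
    rw [Nat.cast_zero, zero_sub, neg_smul, neg_inj, natCast_zsmul] at h2
    exact h2
  have hrig' := hrig τ hLV hlast
  refine ⟨fun i => z i, σ, hLV, (P 0).2 σ, τ (l - 1), ?_, ?_⟩
  · intro i j hij
    simp only at hij
    have h1 := hP i i.2.le
    have h2 := hP j j.2.le
    rw [hij, h2] at h1
    have h3 : P i = P j := (Sum.inl_injective h1).symm
    exact Fin.ext (hinj i i.2 j j.2 (by simp only [h3]))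
  · intro i
    refine ⟨(P i).2, ?_, ?_⟩
    · rw [hP i i.2.le, hσ (Fin.castLE hLV i) (by simp)]
      simp
    · rw [hsum i (by have := i.2; omega)]
      congr 1
      rw [Finset.sum_congr rfl (fun j hj => by
        rw [hrig' j (by have := i.2; have := Finset.mem_range.1 hj; omega)])]
      simp

/-- The map parametrising the homomorphisms whose restriction to `z` is a rigid walk. -/
noncomputable def param {V : Type} [Fintype V] {Γ T : Type} [AddCommGroup Γ] {N L : ℕ}
    (a : T → Γ) (z : Fin L → V) (σ : V ≃ Fin (Fintype.card V)) (hLV : L ≤ Fintype.card V)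
    (d : (Γ × T) × (Fin L → ({σ' : V ≃ Fin (Fintype.card V) // σ' ≠ σ} → Γ)) ×
      ({v : V // v ∉ Set.range z} → Vert V Γ N)) : V → Vert V Γ N := by
  classical
  exact fun v => if h : v ∈ Set.range z then
      .inl (σ.symm (Fin.castLE hLV h.choose),
        fun σ' => if h' : σ' = σ then d.1.1 + (h.choose : ℕ) • a d.1.2
          else d.2.1 h.choose ⟨σ', h'⟩)
    else d.2.2 ⟨v, h⟩

lemma mem_range_param {V : Type} [Fintype V] {Γ T : Type} [AddCommGroup Γ] {N L : ℕ}
    (a : T → Γ) (z : Fin L → V) (σ : V ≃ Fin (Fintype.card V))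
    (hLV : L ≤ Fintype.card V)
    (ψ : V → Vert V Γ N) (x : Γ) (t : T)
    (h : ∀ i : Fin L, ∃ y : Coord V Γ,
        ψ (z i) = .inl (σ.symm (Fin.castLE hLV i), y) ∧ y σ = x + (i : ℕ) • a t) :
    ψ ∈ Set.range (param (N := N) a z σ hLV) := by
  classical
  choose y hy1 hy2 using h
  refine ⟨((x, t), (fun i σ' => y i σ'.1), fun v => ψ v.1), ?_⟩
  funext v
  unfold param
  by_cases hv : v ∈ Set.range z
  · simp only [hv, dif_pos]
    have hc : z hv.choose = v := hv.choose_spec
    have h1 := hy1 hv.choose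
    rw [hc] at h1
    rw [h1]
    congr 2
    funext σ'
    by_cases h' : σ' = σ
    · subst h'
      simp [hy2]
    · simp [h']
  · simp only [hv, dif_neg, not_false_iff]

lemma card_param_domain {V : Type} [Fintype V] {Γ T : Type} [Fintype Γ] [Fintype T]
    {N L : ℕ} (z : Fin L → V) (hz : Function.Injective z)
    (σ : V ≃ Fin (Fintype.card V)) :
    Nat.card ((Γ × T) × (Fin L → ({σ' : V ≃ Fin (Fintype.card V) // σ' ≠ σ} → Γ)) ×
      ({v : V // v ∉ Set.range z} → Vert V Γ N)) =
    Nat.card Γ * Nat.card T *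
      (Nat.card Γ ^ ((Nat.card (V ≃ Fin (Fintype.card V)) - 1) * L) *
      Nat.card (Vert V Γ N) ^ (Fintype.card V - L)) := by
  classical
  have h1 : Nat.card {σ' : V ≃ Fin (Fintype.card V) // σ' ≠ σ} =
      Nat.card (V ≃ Fin (Fintype.card V)) - 1 := by
    rw [Nat.card_eq_fintype_card, Nat.card_eq_fintype_card]
    rw [Fintype.card_subtype_compl, Fintype.card_subtype_eq]
  have h2 : Nat.card {v : V // v ∉ Set.range z} = Fintype.card V - L := by
    have h3 : Nat.card {v : V // v ∉ Set.range z} = ((Set.range z)ᶜ).ncard :=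
      Nat.card_coe_set_eq _
    rw [h3, Set.ncard_compl, ← Nat.card_coe_set_eq, Nat.card_range_of_injective hz,
      Nat.card_eq_fintype_card, Nat.card_eq_fintype_card, Fintype.card_fin]
  rw [Nat.card_prod, Nat.card_prod, Nat.card_prod, Nat.card_fun, Nat.card_fun, Nat.card_fun,
    h1, h2, Nat.card_eq_fintype_card (α := Fin L), Fintype.card_fin, ← pow_mul]

/-- The number of copies of `H` in the host graph. -/
lemma card_copy_le {V : Type} [Fintype V] {Γ T : Type} [AddCommGroup Γ] [Fintype Γ] [Fintype T]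
    {H : SimpleGraph V} {N : ℕ} {q : ℤ} {hq : 0 ≤ q} {cF : V → ℤ} {a : T → Γ} {L : ℕ}
    (hLV : L ≤ Fintype.card V) (hL : 3 ≤ L) (hcF : Good H N q cF)
    (hgirth : ∀ l z, IsCW (Arc H N q (Fintype.card V) cF) l z → L ≤ l)
    (hall : ∀ c', Good H N q c' → ∃ l z, IsCW (Arc H N q (Fintype.card V) c') l z ∧ l ≤ L)
    (hrig : ∀ τ : ℕ → T, L ≤ Fintype.card V →
      ∑ i ∈ Finset.range (L - 1), a (τ i) = (L - 1) • a (τ (L - 1)) →
        ∀ i < L, τ i = τ (L - 1)) :
    Nat.card (SimpleGraph.Copy H (host H N q hq cF a)) ≤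
      (Fintype.card V ^ L * Nat.card (V ≃ Fin (Fintype.card V))) *
      (Nat.card Γ * Nat.card T *
        (Nat.card Γ ^ ((Nat.card (V ≃ Fin (Fintype.card V)) - 1) * L) *
          Nat.card (Vert V Γ N) ^ (Fintype.card V - L))) := by
  classical
  let Z : Finset (Fin L → V) := Finset.univ.filter Function.Injective
  let B : Finset (V → Vert V Γ N) :=
    (Z ×ˢ (Finset.univ : Finset (V ≃ Fin (Fintype.card V)))).biUnion
      (fun p => Finset.univ.image (param a p.1 p.2 hLV))
  have hmem : ∀ ψ : SimpleGraph.Copy H (host H N q hq cF a), (ψ : V → Vert V Γ N) ∈ B := by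
    intro ψ
    obtain ⟨z, σ, hLV', x, t, hz, hψ⟩ :=
      structure_lemma hL hcF hgirth hall hrig ψ.toHom
    have := mem_range_param a z σ hLV (ψ : V → Vert V Γ N) x t hψ
    obtain ⟨d, hd⟩ := this
    exact Finset.mem_biUnion.2 ⟨(z, σ), Finset.mem_product.2
      ⟨Finset.mem_filter.2 ⟨Finset.mem_univ _, hz⟩, Finset.mem_univ _⟩,
      Finset.mem_image.2 ⟨d, Finset.mem_univ _, hd⟩⟩
  have h1 : Nat.card (SimpleGraph.Copy H (host H N q hq cF a)) ≤ B.card := by
    have := Nat.card_le_card_of_injective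
      (fun ψ : SimpleGraph.Copy H (host H N q hq cF a) =>
        (⟨(ψ : V → Vert V Γ N), hmem ψ⟩ : {f : V → Vert V Γ N // f ∈ B}))
      (fun ψ ψ' h => DFunLike.coe_injective (congrArg Subtype.val h))
    refine this.trans (le_of_eq ?_)
    rw [Nat.card_eq_fintype_card, Fintype.card_coe]
  refine h1.trans (Finset.card_biUnion_le.trans ?_)
  calc ∑ p ∈ Z ×ˢ (Finset.univ : Finset (V ≃ Fin (Fintype.card V))),
        (Finset.univ.image (param (N := N) a p.1 p.2 hLV)).card
      ≤ ∑ p ∈ Z ×ˢ (Finset.univ : Finset (V ≃ Fin (Fintype.card V))),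
        (Nat.card Γ * Nat.card T *
        (Nat.card Γ ^ ((Nat.card (V ≃ Fin (Fintype.card V)) - 1) * L) *
          Nat.card (Vert V Γ N) ^ (Fintype.card V - L))) := by
        refine Finset.sum_le_sum fun p hp => ?_
        refine Finset.card_image_le.trans (le_of_eq ?_)
        rw [Finset.card_univ, ← Nat.card_eq_fintype_card]
        exact card_param_domain p.1 (by simpa [Z] using (Finset.mem_product.1 hp).1) p.2
    _ = (Z ×ˢ (Finset.univ : Finset (V ≃ Fin (Fintype.card V)))).card * _ := by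
        rw [Finset.sum_const, smul_eq_mul]
    _ ≤ _ := by
        refine Nat.mul_le_mul_right _ ?_
        rw [Finset.card_product, Finset.card_univ, Nat.card_eq_fintype_card]
        refine Nat.mul_le_mul_right _ ?_
        refine (Finset.card_filter_le _ _).trans (le_of_eq ?_)
        rw [Finset.card_univ, Fintype.card_fun, Fintype.card_fin]

/-- The canonical copy with parameters `x` and `t`. -/
def canonCopy {V : Type} [Fintype V] {Γ T : Type} [AddCommGroup Γ] {H : SimpleGraph V} {N : ℕ}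
    {q : ℤ} {hq : 0 ≤ q} {cF : V → ℤ} {a : T → Γ}
    (p : Coord V Γ × ((V ≃ Fin (Fintype.card V)) → T)) :
    SimpleGraph.Copy H (host H N q hq cF a) where
  toHom :=
    { toFun := fun v => .inl (v, fun σ => p.1 σ + ((σ v : ℕ) : ℤ) • a (p.2 σ))
      map_rel' := by
        intro u v huv
        refine ⟨huv, fun σ => ⟨p.2 σ, ?_⟩⟩
        rw [sub_smul]
        exact add_sub_add_left_eq_sub _ _ _ }
  injective' := by
    intro u v huv
    have := Sum.inl_injective huv
    exact congrArg Prod.fst this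

lemma canon_disjoint {V : Type} [Fintype V] {Γ T : Type} [AddCommGroup Γ] {H : SimpleGraph V}
    {N : ℕ} {q : ℤ} {hq : 0 ≤ q} {cF : V → ℤ} {a : T → Γ}
    (hinj : ∀ k : ℤ, k ≠ 0 → |k| < Fintype.card V → ∀ t t', k • a t = k • a t' → t = t')
    (p p' : Coord V Γ × ((V ≃ Fin (Fintype.card V)) → T)) (hpp' : p ≠ p') :
    EdgeDisjoint (canonCopy p : SimpleGraph.Copy H (host H N q hq cF a)) (canonCopy p') := by
  intro u v u' v' huv huv' heq
  apply hpp'
  have key : ∀ u v : V, u ≠ v →
      (∀ σ : V ≃ Fin (Fintype.card V), p.1 σ + ((σ u : ℕ) : ℤ) • a (p.2 σ) =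
        p'.1 σ + ((σ u : ℕ) : ℤ) • a (p'.2 σ)) →
      (∀ σ : V ≃ Fin (Fintype.card V), p.1 σ + ((σ v : ℕ) : ℤ) • a (p.2 σ) =
        p'.1 σ + ((σ v : ℕ) : ℤ) • a (p'.2 σ)) → p = p' := by
    intro u v huv h1 h2
    have ht : p.2 = p'.2 := by
      funext σ
      apply hinj (((σ v : ℕ) : ℤ) - ((σ u : ℕ) : ℤ))
      · intro h0
        apply huv
        apply σ.injective
        apply Fin.ext
        omega
      · have := (σ u).2
        have := (σ v).2
        rw [abs_lt]
        constructor <;> omega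
      · have e1 := h1 σ
        have e2 := h2 σ
        rw [sub_smul, sub_smul]
        have e3 : (p.1 σ + ((σ v : ℕ) : ℤ) • a (p.2 σ)) - (p.1 σ + ((σ u : ℕ) : ℤ) • a (p.2 σ)) =
          (p'.1 σ + ((σ v : ℕ) : ℤ) • a (p'.2 σ)) -
            (p'.1 σ + ((σ u : ℕ) : ℤ) • a (p'.2 σ)) := by
          rw [e1, e2]
        rw [add_sub_add_left_eq_sub, add_sub_add_left_eq_sub] at e3
        exact e3
    refine Prod.ext ?_ ht
    funext σ
    have e1 := h1 σ
    rw [ht] at e1
    exact add_right_cancel e1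
  have hval : ∀ (w w' : V), (canonCopy p : SimpleGraph.Copy H (host H N q hq cF a)) w =
      (canonCopy p' : SimpleGraph.Copy H (host H N q hq cF a)) w' → w = w' ∧
      ∀ σ : V ≃ Fin (Fintype.card V), p.1 σ + ((σ w : ℕ) : ℤ) • a (p.2 σ) =
        p'.1 σ + ((σ w : ℕ) : ℤ) • a (p'.2 σ) := by
    intro w w' h
    have h1 := Sum.inl_injective h
    have h2 := congrArg Prod.fst h1
    have h3 := congrArg Prod.snd h1
    simp only at h2
    subst h2
    exact ⟨rfl, fun σ => congrFun h3 σ⟩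
  rcases Sym2.eq_iff.1 heq with ⟨h1, h2⟩ | ⟨h1, h2⟩
  · exact key u v huv.ne (hval _ _ h1).2 (hval _ _ h2).2
  · exact key u v huv.ne (hval _ _ h1).2 (hval _ _ h2).2

lemma host_disjoint {V : Type} [Fintype V] {Γ T : Type} [AddCommGroup Γ] [Fintype Γ] [Fintype T]
    {H : SimpleGraph V} {N : ℕ} {q : ℤ} {hq : 0 ≤ q} {cF : V → ℤ} {a : T → Γ}
    (hinj : ∀ k : ℤ, k ≠ 0 → |k| < Fintype.card V → ∀ t t', k • a t = k • a t' → t = t')
    {u₀ v₀ : V} (h₀ : H.Adj u₀ v₀) :
    HasDisjointCopies H (host H N q hq cF a)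
      ((Nat.card Γ * Nat.card T) ^ Nat.card (V ≃ Fin (Fintype.card V)) : ℕ) := by
  classical
  refine ⟨Finset.univ.image canonCopy, ?_, ?_⟩
  · intro f hf g hg hfg
    obtain ⟨p, _, rfl⟩ := Finset.mem_image.1 hf
    obtain ⟨p', _, rfl⟩ := Finset.mem_image.1 hg
    exact canon_disjoint hinj p p' (fun h => hfg (by rw [h]))
  · rw [Finset.card_image_of_injective]
    · have hc : Fintype.card (Coord V Γ × ((V ≃ Fin (Fintype.card V)) → T)) =
          (Nat.card Γ * Nat.card T) ^ Nat.card (V ≃ Fin (Fintype.card V)) := by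
        rw [← Nat.card_eq_fintype_card (α := Coord V Γ × ((V ≃ Fin (Fintype.card V)) → T)),
          Nat.card_prod, Nat.card_fun, Nat.card_fun, mul_pow]
      rw [Finset.card_univ, hc]
    · intro p p' h
      by_contra hne
      have := canon_disjoint (H := H) (N := N) (q := q) (hq := hq) (cF := cF) hinj p p' hne
        u₀ v₀ u₀ v₀ h₀ h₀
      rw [h] at this
      exact this rfl

/-- The minimum degree of the host graph. -/
lemma host_degree {V : Type} [Fintype V] {Γ T : Type} [AddCommGroup Γ] [Fintype Γ]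
    {H : SimpleGraph V} {N : ℕ} {q : ℤ} {hq : 0 ≤ q} {cF : V → ℤ} {a : T → Γ}
    (R : ℕ) (hR : (R : ℤ) + 2 * q + 2 * Fintype.card V + 1 ≤ N) (w : Vert V Γ N) :
    R * Nat.card (Coord V Γ) ≤ ((host H N q hq cF a).neighborSet w).ncard := by
  classical
  have hN : (0 : ℤ) < N := by
    have : (0:ℤ) ≤ Fintype.card V := Nat.cast_nonneg _
    have : (0:ℤ) ≤ R := Nat.cast_nonneg _
    linarith
  let f : Fin R × Coord V Γ → Vert V Γ N := fun p =>
    .inr (⟨((pos cF w + q + Fintype.card V + 1 + (p.1 : ℕ)) % N).toNat, by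
      have h1 := Int.emod_lt_of_pos (pos cF w + q + Fintype.card V + 1 + ((p.1 : ℕ) : ℤ)) hN
      have h0 := Int.emod_nonneg (pos cF w + q + Fintype.card V + 1 + ((p.1 : ℕ) : ℤ)) hN.ne'
      omega⟩, p.2)
  have hf : Function.Injective f := by
    rintro ⟨d, x⟩ ⟨d', x'⟩ h
    have h1 := Sum.inr_injective h
    have h2 := congrArg Prod.fst h1
    have h3 := congrArg Prod.snd h1
    simp only [Fin.mk.injEq] at h2 h3
    subst h3
    have a1 := Int.emod_nonneg (pos cF w + q + Fintype.card V + 1 + ((d : ℕ) : ℤ)) hN.ne'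
    have a2 := Int.emod_nonneg (pos cF w + q + Fintype.card V + 1 + ((d' : ℕ) : ℤ)) hN.ne'
    have h4 : (pos cF w + q + Fintype.card V + 1 + ((d : ℕ) : ℤ)) % N =
        (pos cF w + q + Fintype.card V + 1 + ((d' : ℕ) : ℤ)) % N := by omega
    have h6 : (N : ℤ) ∣ ((d' : ℕ) : ℤ) - ((d : ℕ) : ℤ) := by
      have := Int.ModEq.dvd h4
      rwa [add_sub_add_left_eq_sub] at this
    have hd := d.2
    have hd' := d'.2
    have h7 : ((d' : ℕ) : ℤ) - ((d : ℕ) : ℤ) = 0 := by
      apply Int.eq_zero_of_abs_lt_dvd h6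
      rw [abs_lt]
      constructor <;> zify at * <;> linarith
    have h8 : d = d' := Fin.ext (by omega)
    rw [h8]
  have hsub : Set.range f ⊆ (host H N q hq cF a).neighborSet w := by
    rintro _ ⟨⟨d, x⟩, rfl⟩
    rw [SimpleGraph.mem_neighborSet]
    have hfar : Far N q (Fintype.card V) (pos cF w) (pos cF (f (d, x))) := by
      have e := Int.emod_add_mul_ediv (pos cF w + q + Fintype.card V + 1 + ((d : ℕ) : ℤ)) N
      have a1 := Int.emod_nonneg (pos cF w + q + Fintype.card V + 1 + ((d : ℕ) : ℤ)) hN.ne'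
      have hd := d.2
      have hpos : pos cF (f (d, x)) = (pos cF w + q + Fintype.card V + 1 + ((d : ℕ) : ℤ)) % N :=
        Int.toNat_of_nonneg a1
      refine ⟨(pos cF w + q + Fintype.card V + 1 + ((d : ℕ) : ℤ)) / N, ?_, ?_⟩
      · rw [hpos]
        linarith [(Nat.cast_nonneg (d : ℕ) : (0:ℤ) ≤ _)]
      · rw [hpos]
        zify at hd
        linarith
    rcases w with ⟨u, y⟩ | ⟨j, y⟩
    · exact hfar
    · exact hfar
  calc R * Nat.card (Coord V Γ) = Nat.card (Fin R × Coord V Γ) := by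
        rw [Nat.card_prod, Nat.card_eq_fintype_card (α := Fin R), Fintype.card_fin]
    _ = (Set.range f).ncard := by
        rw [← Nat.card_coe_set_eq, Nat.card_range_of_injective hf]
    _ ≤ _ := Set.ncard_le_ncard hsub (Set.toFinite _)

/-! ### The paraboloid -/

/-- The paraboloid map `t ↦ (t, |t|²)`. -/
def parab {d Q : ℕ} (M1 M2 : ℕ) (t : Fin d → Fin Q) : (Fin d → ZMod M1) × ZMod M2 :=
  (fun j => ((t j : ℕ) : ZMod M1), ((∑ j, (t j : ℕ) ^ 2 : ℕ) : ZMod M2))

lemma parab_inj {d Q h : ℕ} (M2 : ℕ) (k : ℤ) (hk : k ≠ 0) (hkh : |k| < h)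
    (t t' : Fin d → Fin Q) (heq : k • parab (h * Q) M2 t = k • parab (h * Q) M2 t') : t = t' := by
  funext j
  have h1 := congrFun (congrArg Prod.fst heq) j
  simp only [parab, Prod.smul_fst, Pi.smul_apply, zsmul_eq_mul] at h1
  have h2 : (((k * ((t j : ℕ) : ℤ) : ℤ)) : ZMod (h * Q)) =
      ((k * ((t' j : ℕ) : ℤ) : ℤ) : ZMod (h * Q)) := by
    push_cast
    exact h1
  rw [ZMod.intCast_eq_intCast_iff_dvd_sub] at h2
  have a1 := (t j).2
  have a2 := (t' j).2
  have h3 : k * ((t' j : ℕ) : ℤ) - k * ((t j : ℕ) : ℤ) = 0 := by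
    apply Int.eq_zero_of_abs_lt_dvd h2
    rw [← mul_sub, abs_mul]
    have b1 : |((t' j : ℕ) : ℤ) - ((t j : ℕ) : ℤ)| < Q := by
      rw [abs_lt]
      constructor <;> omega
    push_cast
    have hQ : (0 : ℤ) < Q := by omega
    calc |k| * |((t' j : ℕ) : ℤ) - ((t j : ℕ) : ℤ)| ≤ |k| * Q :=
          mul_le_mul_of_nonneg_left b1.le (abs_nonneg _)
      _ < h * Q := mul_lt_mul_of_pos_right hkh hQ
  rw [← mul_sub] at h3
  rcases mul_eq_zero.1 h3 with h4 | h4
  · exact absurd h4 hk
  · exact Fin.ext (by omega)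

lemma parab_rig {d Q h : ℕ} (hQ : 1 ≤ Q) (hd : 1 ≤ d) (L : ℕ) (hL : 3 ≤ L)
    (τ : ℕ → Fin d → Fin Q) (hLh : L ≤ h)
    (heq : ∑ i ∈ Finset.range (L - 1), parab (h * Q) (h * (d * Q ^ 2)) (τ i) =
      (L - 1) • parab (h * Q) (h * (d * Q ^ 2)) (τ (L - 1))) :
    ∀ i < L, τ i = τ (L - 1) := by
  have hsum1 : ∀ j : Fin d, ∑ i ∈ Finset.range (L - 1), ((τ i j : ℕ)) =
      (L - 1) * (τ (L - 1) j : ℕ) := by
    intro j
    have h1 := congrFun (congrArg Prod.fst heq) j
    rw [Prod.fst_sum, Finset.sum_apply] at h1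
    simp only [parab, Prod.smul_fst, Pi.smul_apply, nsmul_eq_mul] at h1
    have h2 : ((∑ i ∈ Finset.range (L - 1), ((τ i j : ℕ)) : ℕ) : ZMod (h * Q)) =
        (((L - 1) * (τ (L - 1) j : ℕ) : ℕ) : ZMod (h * Q)) := by
      push_cast [Nat.cast_sub (show 1 ≤ L by omega)] at h1 ⊢
      exact h1
    rw [ZMod.natCast_eq_natCast_iff] at h2
    apply Nat.ModEq.eq_of_lt_of_lt h2
    · calc ∑ i ∈ Finset.range (L - 1), ((τ i j : ℕ)) ≤ ∑ i ∈ Finset.range (L - 1), Q :=
            Finset.sum_le_sum fun i _ => (τ i j).2.le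
        _ = (L - 1) * Q := by simp
        _ < h * Q := Nat.mul_lt_mul_of_pos_right (by omega) hQ
    · calc (L - 1) * (τ (L - 1) j : ℕ) ≤ (L - 1) * Q := Nat.mul_le_mul_left _ (τ (L - 1) j).2.le
        _ < h * Q := Nat.mul_lt_mul_of_pos_right (by omega) hQ
  have hsq : ∀ t : Fin d → Fin Q, ∑ j, (t j : ℕ) ^ 2 ≤ d * Q ^ 2 := by
    intro t
    calc ∑ j, (t j : ℕ) ^ 2 ≤ ∑ j : Fin d, Q ^ 2 :=
          Finset.sum_le_sum fun j _ => Nat.pow_le_pow_left (t j).2.le 2
      _ = d * Q ^ 2 := by simp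
  have hpos : 0 < d * Q ^ 2 := by positivity
  have hsum2 : ∑ i ∈ Finset.range (L - 1), ∑ j, (τ i j : ℕ) ^ 2 =
      (L - 1) * ∑ j, (τ (L - 1) j : ℕ) ^ 2 := by
    have h1 := congrArg Prod.snd heq
    rw [Prod.snd_sum] at h1
    simp only [parab, Prod.smul_snd, nsmul_eq_mul] at h1
    have h2 : ((∑ i ∈ Finset.range (L - 1), ∑ j, (τ i j : ℕ) ^ 2 : ℕ) :
        ZMod (h * (d * Q ^ 2))) =
        (((L - 1) * ∑ j, (τ (L - 1) j : ℕ) ^ 2 : ℕ) : ZMod (h * (d * Q ^ 2))) := by
      rw [Nat.cast_sum, Nat.cast_mul]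
      exact h1
    rw [ZMod.natCast_eq_natCast_iff] at h2
    apply Nat.ModEq.eq_of_lt_of_lt h2
    · calc ∑ i ∈ Finset.range (L - 1), ∑ j, (τ i j : ℕ) ^ 2
            ≤ ∑ i ∈ Finset.range (L - 1), d * Q ^ 2 := Finset.sum_le_sum fun i _ => hsq _
        _ = (L - 1) * (d * Q ^ 2) := by simp
        _ < h * (d * Q ^ 2) := Nat.mul_lt_mul_of_pos_right (by omega) hpos
    · calc (L - 1) * ∑ j, (τ (L - 1) j : ℕ) ^ 2 ≤ (L - 1) * (d * Q ^ 2) :=
            Nat.mul_le_mul_left _ (hsq _)
        _ < h * (d * Q ^ 2) := Nat.mul_lt_mul_of_pos_right (by omega) hpos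
  -- the variance vanishes
  have hvar : ∑ i ∈ Finset.range (L - 1), ∑ j, (((τ i j : ℕ) : ℤ) - ((τ (L - 1) j : ℕ) : ℤ)) ^ 2
      = 0 := by
    have e1 : ∀ i, ∑ j, (((τ i j : ℕ) : ℤ) - ((τ (L - 1) j : ℕ) : ℤ)) ^ 2 =
        ∑ j, ((τ i j : ℕ) : ℤ) ^ 2 - 2 * ∑ j, ((τ (L - 1) j : ℕ) : ℤ) * ((τ i j : ℕ) : ℤ) +
          ∑ j, ((τ (L - 1) j : ℕ) : ℤ) ^ 2 := by
      intro i
      rw [Finset.mul_sum, ← Finset.sum_sub_distrib, ← Finset.sum_add_distrib]
      refine Finset.sum_congr rfl fun j _ => ?_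
      ring
    simp only [e1]
    rw [Finset.sum_add_distrib, Finset.sum_sub_distrib, ← Finset.mul_sum, Finset.sum_comm (s := Finset.range (L - 1)) (t := Finset.univ) (f := fun i j => ((τ (L - 1) j : ℕ) : ℤ) * ((τ i j : ℕ) : ℤ))]
    simp only [← Finset.mul_sum]
    have e2 : ∀ j, ∑ i ∈ Finset.range (L - 1), ((τ i j : ℕ) : ℤ) =
        ((L - 1 : ℕ) : ℤ) * ((τ (L - 1) j : ℕ) : ℤ) := by
      intro j
      have := hsum1 j
      zify at this
      exact_mod_cast this
    have e3 : ∑ i ∈ Finset.range (L - 1), ∑ j, ((τ i j : ℕ) : ℤ) ^ 2 =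
        ((L - 1 : ℕ) : ℤ) * ∑ j, ((τ (L - 1) j : ℕ) : ℤ) ^ 2 := by
      exact_mod_cast hsum2
    simp only [e2, e3]
    rw [Finset.sum_const, Finset.card_range, nsmul_eq_mul]
    have e4 : ∑ j, ((τ (L - 1) j : ℕ) : ℤ) * (((L - 1 : ℕ) : ℤ) * ((τ (L - 1) j : ℕ) : ℤ)) =
        ((L - 1 : ℕ) : ℤ) * ∑ j, ((τ (L - 1) j : ℕ) : ℤ) ^ 2 := by
      rw [Finset.mul_sum]
      exact Finset.sum_congr rfl fun j _ => by ring
    rw [e4]
    ring
  intro i hi
  rcases (by omega : i < L - 1 ∨ i = L - 1) with h1 | h1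
  · have h2 := (Finset.sum_eq_zero_iff_of_nonneg (fun i _ => Finset.sum_nonneg
      (fun j _ => sq_nonneg _))).1 hvar i (Finset.mem_range.2 h1)
    funext j
    have h3 := (Finset.sum_eq_zero_iff_of_nonneg (fun j _ => sq_nonneg _)).1 h2 j
      (Finset.mem_univ _)
    have h4 := pow_eq_zero_iff (two_ne_zero) |>.1 h3
    exact Fin.ext (by omega)
  · rw [h1]

/-! ### Removal thresholds -/

lemma removalDelta_le {V W : Type} [Fintype V] [Fintype W] (H : SimpleGraph V)
    (G : SimpleGraph W) {ε γ : ℝ} (hW : 0 < Fintype.card W)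
    (hdeg : ∀ w, γ * Fintype.card W ≤ (G.neighborSet w).ncard)
    (hcop : HasDisjointCopies H G (ε * (Fintype.card W : ℝ) ^ 2)) :
    removalDelta H ε γ ≤ Nat.card (SimpleGraph.Copy H G) /
      (Fintype.card W : ℝ) ^ Fintype.card V := by
  classical
  unfold removalDelta removalSet
  apply csSup_le
  · exact ⟨0, le_rfl, zero_le_one, fun n G' _ _ => by
      rw [zero_mul]; exact Nat.cast_nonneg _⟩
  · rintro δ ⟨_, _, hδ⟩
    rw [le_div_iff₀ (by positivity)]
    let e : Fin (Fintype.card W) ≃ W := (Fintype.equivFin W).symm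
    let I : G.comap e ≃g G := SimpleGraph.Iso.comap e G
    have hcard : Nat.card (SimpleGraph.Copy H (G.comap e)) = Nat.card (SimpleGraph.Copy H G) := by
      apply Nat.card_congr
      refine ⟨fun f => I.toCopy.comp f, fun f => I.symm.toCopy.comp f, fun f => ?_, fun f => ?_⟩
      · ext v
        simp [I]
      · ext v
        simp [I]
    rw [← hcard]
    refine hδ _ (G.comap e) (fun w => ?_) ?_
    · refine (hdeg (e w)).trans (le_of_eq ?_)
      congr 1
      have : G.neighborSet (e w) = e '' ((G.comap e).neighborSet w) := by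
        ext v
        simp only [SimpleGraph.mem_neighborSet, Set.mem_image, SimpleGraph.comap_adj]
        constructor
        · intro h
          exact ⟨e.symm v, by simpa using h, by simp⟩
        · rintro ⟨x, hx, rfl⟩
          exact hx
      rw [this, Set.ncard_image_of_injective _ e.injective]
    · obtain ⟨F, hF1, hF2⟩ := hcop
      refine ⟨F.image (fun f => I.symm.toCopy.comp f), ?_, ?_⟩
      · intro f hf g hg hfg
        obtain ⟨f', hf', rfl⟩ := Finset.mem_image.1 hf
        obtain ⟨g', hg', rfl⟩ := Finset.mem_image.1 hg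
        have hne : f' ≠ g' := fun h => hfg (by rw [h])
        intro a b a' b' hab hab' heq
        apply hF1 f' hf' g' hg' hne a b a' b' hab hab'
        have := congrArg (Sym2.map e) heq
        simpa [I] using this
      · rw [Finset.card_image_of_injective]
        · exact hF2
        · intro f g hfg
          ext v
          have := DFunLike.congr_fun hfg v
          simpa [I] using this


/-- The numerical heart: for the host graphs built from the paraboloid, the number of copies of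
`H` is smaller than any fixed power of the density of edge-disjoint copies. -/
lemma numeric {μ A C B : ℝ} (hμ : 0 < μ) (hA : 0 < A) (hB : 0 < B) (s K : ℕ)
    (hall : ∀ Q : ℕ, 1 ≤ Q → μ * (1 / ((A * (Q : ℝ) ^ 2) ^ s * B)) ^ K ≤
      C * (1 / (Q : ℝ) ^ (2 * s * K + 1))) : False := by
  have h1 : ∀ Q : ℕ, 1 ≤ Q → (Q : ℝ) ≤ C * (A ^ s * B) ^ K / μ := by
    intro Q hQ
    have h := hall Q hQ
    have hQ' : (0 : ℝ) < Q := by exact_mod_cast hQ
    rw [le_div_iff₀ hμ]
    rw [one_div, inv_pow, mul_one_div, ← div_eq_mul_inv, div_le_div_iff₀ (by positivity)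
      (by positivity)] at h
    have e1 : ((A * (Q : ℝ) ^ 2) ^ s * B) ^ K = (A ^ s * B) ^ K * (Q : ℝ) ^ (2 * s * K) := by
      rw [mul_pow, mul_pow, mul_pow, ← pow_mul, ← pow_mul, ← pow_mul]
      ring
    rw [e1, pow_succ] at h
    have h2 : (μ * Q) * (Q : ℝ) ^ (2 * s * K) ≤ (C * (A ^ s * B) ^ K) * (Q : ℝ) ^ (2 * s * K) := by
      calc (μ * Q) * (Q : ℝ) ^ (2 * s * K) = μ * ((Q : ℝ) ^ (2 * s * K) * Q) := by ring
        _ ≤ C * ((A ^ s * B) ^ K * (Q : ℝ) ^ (2 * s * K)) := h
        _ = _ := by ring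
    have h3 := le_of_mul_le_mul_right h2 (by positivity)
    linarith
  obtain ⟨Q, hQ⟩ := exists_nat_gt (C * (A ^ s * B) ^ K / μ)
  have h2 := h1 (Q + 1) (by omega)
  push_cast at h2
  linarith

/-- The main lower bound. -/
lemma not_poly {V : Type} [Fintype V] (H : SimpleGraph V) {k : ℕ} (hk : 1 ≤ k)
    (hH : ¬ Nonempty (H →g cycleGraph (2 * k + 1))) {M : ℕ}
    (hM : 2 * Fintype.card V * Fintype.card V < M) {γ μ : ℝ}
    (hγ : γ * ((2 * k + 1) * M + Fintype.card V) ≤ M + 2 * Fintype.card V + 1) (hμ : 0 < μ) :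
    ¬ ∀ ε : ℝ, 0 < ε → ε ≤ 1 → μ * ε ^ (1 / μ) ≤ removalDelta H ε γ := by
  classical
  intro hpoly
  obtain ⟨q, c, hq1, hq2, hc, hmax⟩ := exists_max H hk hM hH
  set h := Fintype.card V with hh
  have hN : 2 * q + 2 * h < (2 * k + 1) * (M : ℤ) := by
    have : (0 : ℤ) ≤ M := Nat.cast_nonneg _
    have : (0 : ℤ) ≤ h := Nat.cast_nonneg _
    linarith
  obtain ⟨cF, L, hcF, hL3, hLV, hgirth, hall⟩ := exists_extremal H hc hq1 hN hmax
  -- an edge
  obtain ⟨l₀, z₀, hz₀, _⟩ := hall cF hcF
  have hedge : H.Adj (z₀ 0) (z₀ 1) := (hz₀.2.1 0 hz₀.1).1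
  have hhpos : 0 < h := Fintype.card_pos_iff.2 ⟨z₀ 0⟩
  set s := Nat.card (V ≃ Fin h) with hs
  have hs1 : 1 ≤ s := Nat.card_pos_iff.2 ⟨⟨Fintype.equivFin V⟩, inferInstance⟩
  set K := ⌈1 / μ⌉₊ with hK
  set N : ℕ := (2 * k + 1) * M with hNdef
  set d := 2 * s * K + 1 with hd
  have hMpos : 0 < M := lt_of_le_of_lt (Nat.zero_le _) hM
  have hNcast : ((N : ℕ) : ℤ) = (2 * k + 1) * (M : ℤ) := by rw [hNdef]; push_cast; ring
  have hcF' : Good H (N : ℤ) q cF := by rw [hNcast]; exact hcF
  have hgirth' : ∀ l z, IsCW (Arc H (N : ℤ) q h cF) l z → L ≤ l := by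
    rw [hNcast]; exact hgirth
  have hall' : ∀ c', Good H (N : ℤ) q c' →
      ∃ l z, IsCW (Arc H (N : ℤ) q h c') l z ∧ l ≤ L := by
    rw [hNcast]; exact hall
  have hq0 : 0 ≤ q := by linarith
  -- the constants
  set A : ℝ := (h : ℝ) ^ (d + 1) * d with hA
  have hApos : 0 < A := by
    have h1 : (0 : ℝ) < h := by exact_mod_cast hhpos
    have h2 : (0 : ℝ) < d := by exact_mod_cast (by omega : 0 < d)
    positivity
  have hBpos : (0 : ℝ) < ((h : ℝ) + N) ^ 2 := by
    have h1 : (0 : ℝ) < h := by exact_mod_cast hhpos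
    positivity
  refine numeric (C := (h : ℝ) ^ L * s) hμ hApos hBpos s K ?_
  intro Q hQ
  -- the group and the index set
  haveI : NeZero (h * Q) := ⟨by positivity⟩
  haveI : NeZero (h * (d * Q ^ 2)) := ⟨by positivity⟩
  let Γ : Type := (Fin d → ZMod (h * Q)) × ZMod (h * (d * Q ^ 2))
  let T : Type := Fin d → Fin Q
  let a : T → Γ := parab (h * Q) (h * (d * Q ^ 2))
  letI : Fintype Γ := inferInstanceAs (Fintype ((Fin d → ZMod (h * Q)) × ZMod (h * (d * Q ^ 2))))
  letI : AddCommGroup Γ :=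
    inferInstanceAs (AddCommGroup ((Fin d → ZMod (h * Q)) × ZMod (h * (d * Q ^ 2))))
  letI : Fintype T := inferInstanceAs (Fintype (Fin d → Fin Q))
  have hcardT : Nat.card T = Q ^ d := by
    change Nat.card (Fin d → Fin Q) = Q ^ d
    rw [Nat.card_fun, Nat.card_fin, Nat.card_fin]
  have hcardΓ : Nat.card Γ = (h * Q) ^ d * (h * (d * Q ^ 2)) := by
    change Nat.card ((Fin d → ZMod (h * Q)) × ZMod (h * (d * Q ^ 2))) = _
    rw [Nat.card_prod, Nat.card_fun, Nat.card_zmod, Nat.card_zmod, Nat.card_fin]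
  set g := Nat.card Γ with hg
  set τ := Nat.card T with hτ
  have hgτ : (g : ℝ) = A * (Q : ℝ) ^ 2 * τ := by
    rw [hcardΓ, hcardT, hA]
    push_cast
    ring
  have hQd : Q ^ d ≤ g := by
    rw [hcardΓ]
    calc Q ^ d ≤ (h * Q) ^ d := Nat.pow_le_pow_left (Nat.le_mul_of_pos_left _ hhpos) _
      _ ≤ _ := Nat.le_mul_of_pos_right _ (by positivity)
  have hτpos : 0 < τ := by rw [hcardT]; positivity
  have hgpos : 0 < g := lt_of_lt_of_le (by positivity) hQd
  have hτg : τ ≤ g := by rw [hcardT]; exact hQd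
  -- the host graph
  let G : SimpleGraph (Vert V Γ N) := host H N q hq0 cF a
  have hinj : ∀ k : ℤ, k ≠ 0 → |k| < Fintype.card V → ∀ t t', k • a t = k • a t' → t = t' :=
    fun k hk hkh t t' heq => parab_inj (h * (d * Q ^ 2)) k hk hkh t t' heq
  have hrig : ∀ τ : ℕ → T, L ≤ Fintype.card V →
      ∑ i ∈ Finset.range (L - 1), a (τ i) = (L - 1) • a (τ (L - 1)) →
        ∀ i < L, τ i = τ (L - 1) :=
    fun τ hLh heq => parab_rig hQ (by omega) L hL3 τ hLh heq
  have hcount := card_copy_le (H := H) (N := N) (hq := hq0) (a := a) hLV hL3 hcF' hgirth' hall'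
    hrig
  have hdisj := host_disjoint (H := H) (N := N) (hq := hq0) (cF := cF) (a := a) hinj hedge
  have hcoord : Nat.card (Coord V Γ) = g ^ s := by
    rw [Nat.card_fun]
  have hcardW : Fintype.card (Vert V Γ N) = (h + N) * g ^ s := by
    rw [← Nat.card_eq_fintype_card, Nat.card_sum, Nat.card_prod, Nat.card_prod, hcoord,
      Nat.card_fin, Nat.card_eq_fintype_card (α := V)]
    ring
  have hcardW' : Nat.card (Vert V Γ N) = (h + N) * g ^ s := by
    rw [Nat.card_eq_fintype_card, hcardW]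
  have hgR : (0 : ℝ) < g := by exact_mod_cast hgpos
  have hτR : (0 : ℝ) < τ := by exact_mod_cast hτpos
  have hQR : (0 : ℝ) < Q := by exact_mod_cast hQ
  have hhR : (0 : ℝ) < h := by exact_mod_cast hhpos
  have hWpos : 0 < Fintype.card (Vert V Γ N) := by rw [hcardW]; positivity
  have hdeg : ∀ w, γ * Fintype.card (Vert V Γ N) ≤ (G.neighborSet w).ncard := by
    intro w
    have h1 := host_degree (H := H) (N := N) (q := q) (hq := hq0) (cF := cF) (a := a)
      (M + 2 * h + 1) (by rw [hNcast]; push_cast; linarith) w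
    rw [hcoord] at h1
    have h2 : ((M + 2 * h + 1 : ℕ) : ℝ) * (g : ℝ) ^ s ≤ (G.neighborSet w).ncard := by
      exact_mod_cast h1
    refine le_trans ?_ h2
    rw [hcardW, hNdef]
    push_cast
    calc γ * (((h : ℝ) + (2 * k + 1) * M) * (g : ℝ) ^ s)
        = (γ * ((2 * k + 1) * M + h)) * (g : ℝ) ^ s := by ring
      _ ≤ ((M : ℝ) + 2 * h + 1) * (g : ℝ) ^ s :=
          mul_le_mul_of_nonneg_right hγ (by positivity)
  set n : ℝ := (Fintype.card (Vert V Γ N) : ℝ) with hn
  have hnval : n = ((h : ℝ) + N) * (g : ℝ) ^ s := by rw [hn, hcardW]; push_cast; ring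
  have hnpos : 0 < n := by rw [hn]; exact_mod_cast hWpos
  set ε : ℝ := ((g : ℝ) * τ) ^ s / n ^ 2 with hε
  have hεpos : 0 < ε := by positivity
  have hgsn : (g : ℝ) ^ s ≤ n := by
    rw [hnval]
    have h1 : (1 : ℝ) ≤ (h : ℝ) + N := by
      have : (1 : ℝ) ≤ h := by exact_mod_cast hhpos
      have : (0 : ℝ) ≤ N := Nat.cast_nonneg _
      linarith
    calc (g : ℝ) ^ s = 1 * (g : ℝ) ^ s := (one_mul _).symm
      _ ≤ _ := mul_le_mul_of_nonneg_right h1 (by positivity)
  have hε1 : ε ≤ 1 := by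
    rw [hε, div_le_one (by positivity)]
    have h1 : (τ : ℝ) ≤ g := by exact_mod_cast hτg
    calc ((g : ℝ) * τ) ^ s ≤ ((g : ℝ) * g) ^ s :=
          pow_le_pow_left₀ (by positivity) (mul_le_mul_of_nonneg_left h1 hgR.le) _
      _ = ((g : ℝ) ^ s) ^ 2 := by rw [← sq, ← pow_mul, ← pow_mul, mul_comm]
      _ ≤ n ^ 2 := pow_le_pow_left₀ (by positivity) hgsn _
  have hcop : HasDisjointCopies H G (ε * (Fintype.card (Vert V Γ N) : ℝ) ^ 2) := by
    rw [← hn, hε, div_mul_cancel₀ _ (by positivity)]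
    have : (((g * τ) ^ s : ℕ) : ℝ) = ((g : ℝ) * τ) ^ s := by push_cast; ring
    rw [← this]
    exact hdisj
  have hmain := (hpoly ε hεpos hε1).trans (removalDelta_le H G hWpos hdeg hcop)
  -- lower bound for the left side
  have hεK : μ * ε ^ K ≤ μ * ε ^ (1 / μ) := by
    apply mul_le_mul_of_nonneg_left _ hμ.le
    rw [← Real.rpow_natCast]
    exact Real.rpow_le_rpow_of_exponent_ge hεpos hε1 (Nat.le_ceil _)
  have hεval : ε = 1 / ((A * (Q : ℝ) ^ 2) ^ s * ((h : ℝ) + N) ^ 2) := by
    rw [hε, hnval]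
    rw [div_eq_div_iff (by positivity) (by positivity)]
    have e1 : ((g : ℝ)) ^ s = (A * (Q : ℝ) ^ 2) ^ s * (τ : ℝ) ^ s := by
      rw [hgτ, mul_pow]
    rw [mul_pow, mul_pow ((h : ℝ) + N)]
    calc (g : ℝ) ^ s * (τ : ℝ) ^ s * ((A * (Q : ℝ) ^ 2) ^ s * ((h : ℝ) + N) ^ 2)
        = (g : ℝ) ^ s * ((A * (Q : ℝ) ^ 2) ^ s * (τ : ℝ) ^ s) * ((h : ℝ) + N) ^ 2 := by ring
      _ = 1 * (((h : ℝ) + N) ^ 2 * ((g : ℝ) ^ s) ^ 2) := by rw [← e1]; ring
  rw [← hεval]
  refine hεK.trans (hmain.trans ?_)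
  -- upper bound for the number of copies
  rw [← hn]
  rw [div_le_iff₀ (by positivity)]
  have hcountR : (Nat.card (SimpleGraph.Copy H G) : ℝ) ≤
      ((h : ℝ) ^ L * s) * ((g : ℝ) * τ * ((g : ℝ) ^ ((s - 1) * L) * n ^ (h - L))) := by
    rw [hn, ← Nat.card_eq_fintype_card]
    exact_mod_cast hcount
  refine hcountR.trans ?_
  rw [mul_assoc ((h : ℝ) ^ L * s)]
  apply mul_le_mul_of_nonneg_left _ (by positivity)
  rw [one_div, ← div_eq_inv_mul, le_div_iff₀ (by positivity)]
  have e1 : (g : ℝ) * τ * (Q : ℝ) ^ (2 * s * K + 1) ≤ (g : ℝ) ^ L := by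
    have h1 : g * τ * Q ^ (2 * s * K + 1) ≤ g ^ L := by
      calc g * τ * Q ^ (2 * s * K + 1) ≤ g * g * g :=
            Nat.mul_le_mul (Nat.mul_le_mul_left _ hτg) hQd
        _ = g ^ 3 := by ring
        _ ≤ g ^ L := Nat.pow_le_pow_right hgpos hL3
    exact_mod_cast h1
  calc (g : ℝ) * τ * ((g : ℝ) ^ ((s - 1) * L) * n ^ (h - L)) * (Q : ℝ) ^ (2 * s * K + 1)
      = ((g : ℝ) * τ * (Q : ℝ) ^ (2 * s * K + 1)) * (g : ℝ) ^ ((s - 1) * L) * n ^ (h - L) := by
        ring
    _ ≤ (g : ℝ) ^ L * (g : ℝ) ^ ((s - 1) * L) * n ^ (h - L) := by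
        apply mul_le_mul_of_nonneg_right _ (by positivity)
        exact mul_le_mul_of_nonneg_right e1 (by positivity)
    _ = ((g : ℝ) ^ s) ^ L * n ^ (h - L) := by
        rw [← pow_add, ← pow_mul]
        congr 2
        have : s = (s - 1) + 1 := by omega
        nlinarith
    _ ≤ n ^ L * n ^ (h - L) := by
        apply mul_le_mul_of_nonneg_right _ (by positivity)
        exact pow_le_pow_left₀ (by positivity) hgsn _
    _ = n ^ h := by rw [← pow_add]; congr 1; omega

/-- For every finite graph `H` and every `k ≥ 1`: if `H` has no homomorphism to the odd cycle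
`C_{2k+1}`, then the polynomial removal threshold of `H` is larger than `1 / (2k+1)`. -/
theorem main : ∀ (V : Type) [Fintype V] (H : SimpleGraph V) (k : ℕ), 1 ≤ k →
    ¬ Nonempty (H →g cycleGraph (2 * k + 1)) →
    (1 : ℝ) / (2 * k + 1) < polyRemThreshold H := by
  intro V _ H k hk hH
  classical
  set h := Fintype.card V with hh
  have hVne : Nonempty V := by
    by_contra hne
    rw [not_nonempty_iff] at hne
    exact hH ⟨⟨fun v => (hne.false v).elim, fun {v} => (hne.false v).elim⟩⟩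
  have hhpos : 0 < h := Fintype.card_pos
  set M := 2 * h * h + 1 with hM
  have hMR : (0 : ℝ) < (2 * k + 1) * M + h := by positivity
  set γ₀ : ℝ := (M + 2 * h + 1) / ((2 * k + 1) * M + h) with hγ₀
  have hlt : (1 : ℝ) / (2 * k + 1) < γ₀ := by
    rw [hγ₀, div_lt_div_iff₀ (by positivity) hMR]
    have h1 : (0 : ℝ) < h := by exact_mod_cast hhpos
    have h2 : (1 : ℝ) ≤ k := by exact_mod_cast hk
    nlinarith
  refine lt_of_lt_of_le hlt ?_
  unfold polyRemThreshold
  apply le_csInf
  · refine ⟨1, zero_le_one, le_rfl, 1, one_pos, fun ε hε hε1 => ?_⟩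
    have h1 : (1 : ℝ) ≤ removalDelta H ε 1 := by
      unfold removalDelta removalSet
      apply le_csSup
      · exact ⟨1, fun δ hδ => hδ.2.1⟩
      · refine ⟨zero_le_one, le_rfl, fun n G hdeg _ => ?_⟩
        rcases Nat.eq_zero_or_pos n with h0 | h0
        · subst h0
          rw [Nat.cast_zero, zero_pow (by rw [← hh]; omega), mul_zero]
          exact Nat.cast_nonneg _
        · exfalso
          have h1 := hdeg ⟨0, h0⟩
          rw [one_mul] at h1
          have h2 : n ≤ (G.neighborSet ⟨0, h0⟩).ncard := by exact_mod_cast h1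
          have h3 : (G.neighborSet ⟨0, h0⟩).ncard < (Set.univ : Set (Fin n)).ncard := by
            apply Set.ncard_lt_ncard _ (Set.toFinite _)
            refine ⟨Set.subset_univ _, fun hs => ?_⟩
            exact G.loopless.irrefl _ (hs (Set.mem_univ (⟨0, h0⟩ : Fin n)))
          rw [Set.ncard_univ, Nat.card_fin] at h3
          omega
    refine le_trans ?_ h1
    rw [div_one, Real.rpow_one, one_mul]
    exact hε1
  · rintro γ ⟨_, _, μ, hμ, hpoly⟩
    by_contra hγ
    push Not at hγ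
    refine not_poly H hk hH (M := M) (by rw [← hh]; omega) ?_ hμ hpoly
    rw [hγ₀, lt_div_iff₀ hMR] at hγ
    exact hγ.le

end Pool.Agent.Lib.MP_d6499d_co
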